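import Pool.Agent.W920.CT.Main

set_option autoImplicit false

/-!
# Conjugacy of topologically transitive homeomorphisms of the Cantor set (Q2)

Lower bound.  For a graph `G` on `ℕ` let `D` be its directed incidence graph, with vertices
`V = ℕ ⊕ ℕ × ℕ` and arrows from `i` to the pairs `(i, j)`, `(j, i)` for which `i = j` or `i` and
`j` are adjacent.  Let `X_G` be the subshift over the compact alphabet `V ∪ 2^ℕ` in which a letter
`v ∈ V` may be followed by a different letter `w ∈ V` only if there is an arrow from `v` to `w`.
The points of `X_G` are the independent sets of a graph on `ℤ × (V ⊕ ℕ)`, and a greedy algorithm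
identifies `X_G` with `2^ℕ`, continuously in `G`.  The isolated fixed points of the shift are the
constant sequences `v ∈ V`, and there is an arrow from `v` to `w` iff there is an orbit from `v`
to `w` that is isolated in the uniform sense.  So the conjugacy class of the shift on `X_G`
determines `G` up to isomorphism.

Upper bound.  By Stone duality `T` is determined up to conjugacy by the structure
`(Clopens, {(a, b) : T a ⊆ b})`, which is coded into a graph.
-/

namespace Pool.Agent.Results.MP_f7d718_lc.TransitiveComplete

open Pool.Agent.W920.CT

/-- **Q2.**  Topological conjugacy of topologically transitive homeomorphisms of the Cantor set is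
Borel bi-reducible with isomorphism of countable graphs (the maximal `S_∞`-action). -/
theorem result : BorelReducible CGraphIso TopConj ∧ BorelReducible TopConj CGraphIso :=
  ⟨lower, upper⟩

end Pool.Agent.Results.MP_f7d718_lc.TransitiveComplete
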